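import Pool.Agent.Lib.MP_688fd0_co.SQ6.Iface

/-!
Row MERGE of board B1* (SQ6): at most two orbits after a bounded number of moves.
`E` is the part of `C` for the primes which divide the order of some letter. GEN and MERGC in `H ⧸ E`, then FLIP.
-/

set_option autoImplicit false

namespace Pool.Agent.Lib.MP_688fd0_co.SQ6.H96

open Pool.Agent.Lib.MP_688fd0_co.OSF

universe u

section moves

variable {H : Type u} [Group H] {V : Set H}

theorem mv_mul {n m : ℕ} {f g : Equiv.Perm H} (hf : Mv V n f) (hg : Mv V m g) :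
    Mv V (n + m) (f * g) := by
  obtain ⟨l, h1, h2, h3⟩ := hf
  obtain ⟨l', h1', h2', h3'⟩ := hg
  refine ⟨l ++ l', ?_, ?_, ?_⟩
  · rw [List.length_append]; omega
  · intro x hx
    rw [List.mem_append] at hx
    rcases hx with hx | hx
    · exact h2 x hx
    · exact h2' x hx
  · rw [List.prod_append, h3, h3']

theorem mv_mono {n m : ℕ} {f : Equiv.Perm H} (hf : Mv V n f) (h : n ≤ m) : Mv V m f := by
  obtain ⟨l, h1, h2, h3⟩ := hf
  exact ⟨l, h1.trans h, h2, h3⟩

theorem mv_one : Mv V 0 (1 : Equiv.Perm H) := ⟨[], le_rfl, by simp, rfl⟩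

/-- right multiplication by a letter is a move -/
theorem mv_mulRight {v : H} (hv : v ∈ V) : Mv V 1 (Equiv.mulRight v) := by
  refine ⟨[Equiv.mulRight v], le_rfl, ?_, by simp⟩
  intro g hg
  rw [List.mem_singleton] at hg
  subst hg
  refine ⟨v, hv, Set.univ, fun x => by simp, ?_⟩
  ext x
  simp [rot]

/-- right multiplication by a word -/
theorem mv_word : ∀ l : List H, (∀ v ∈ l, v ∈ V) → Mv V l.length (Equiv.mulRight l.prod)
  | [], _ => by
    have e : (Equiv.mulRight ([] : List H).prod) = (1 : Equiv.Perm H) := by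
      ext x; simp
    rw [e]
    exact mv_one
  | v :: l, h => by
    have e : (Equiv.mulRight (v :: l).prod) =
        (Equiv.mulRight l.prod) * (Equiv.mulRight v : Equiv.Perm H) := by
      ext x; simp [mul_assoc]
    rw [e, List.length_cons]
    exact mv_mul (mv_word l fun w hw => h w (List.mem_cons_of_mem _ hw))
      (mv_mulRight (h v List.mem_cons_self))

theorem rot_mem {v : H} {X : Set H} (h : Cl v X) {x : H} (hx : x ∈ X) : rot v X h x = x * v :=
  if_pos hx

theorem rot_not_mem {v : H} {X : Set H} (h : Cl v X) {x : H} (hx : x ∉ X) : rot v X h x = x :=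
  if_neg hx

/-- lifting one move -/
theorem lift_one (E : Subgroup H) [E.Normal] {v : H} (hv : v ∈ V) (X : Set (H ⧸ E))
    (h : Cl (QuotientGroup.mk' E v) X) : ∃ F, Mv V 1 F ∧
      (∀ x, QuotientGroup.mk' E (F x) = rot (QuotientGroup.mk' E v) X h (QuotientGroup.mk' E x)) ∧
      ∀ c ∈ E, ∀ x, F (c * x) = c * F x := by
  have hcl : Cl v ((QuotientGroup.mk' E) ⁻¹' X) := by
    intro x
    simp only [Set.mem_preimage, map_mul]
    exact h _
  refine ⟨rot v _ hcl, ⟨[rot v _ hcl], le_rfl, ?_, by simp⟩, ?_, ?_⟩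
  · intro g hg
    rw [List.mem_singleton] at hg
    exact ⟨v, hv, _, hcl, hg⟩
  · intro x
    by_cases hx : QuotientGroup.mk' E x ∈ X
    · rw [rot_mem h hx, rot_mem hcl (by exact hx), map_mul]
    · rw [rot_not_mem h hx, rot_not_mem hcl (by exact hx)]
  · intro c hc x
    have e : QuotientGroup.mk' E (c * x) = QuotientGroup.mk' E x := by
      rw [map_mul]
      have : QuotientGroup.mk' E c = 1 := (QuotientGroup.eq_one_iff c).2 hc
      rw [this, one_mul]
    by_cases hx : QuotientGroup.mk' E x ∈ X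
    · rw [rot_mem hcl (x := x) (by exact hx), rot_mem hcl (x := c * x)
        (by show QuotientGroup.mk' E (c * x) ∈ X; rw [e]; exact hx), mul_assoc]
    · rw [rot_not_mem hcl (x := x) (by exact hx), rot_not_mem hcl (x := c * x)
        (by show QuotientGroup.mk' E (c * x) ∉ X; rw [e]; exact hx)]

/-- lifting a product of moves -/
theorem lift_mv (E : Subgroup H) [E.Normal] {n : ℕ} {f : Equiv.Perm (H ⧸ E)}
    (hf : Mv (QuotientGroup.mk' E '' V) n f) : ∃ F, Mv V n F ∧
      (∀ x, QuotientGroup.mk' E (F x) = f (QuotientGroup.mk' E x)) ∧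
      ∀ c ∈ E, ∀ x, F (c * x) = c * F x := by
  obtain ⟨l, h1, h2, h3⟩ := hf
  suffices h : ∀ l : List (Equiv.Perm (H ⧸ E)), (∀ g ∈ l, ∃ v ∈ QuotientGroup.mk' E '' V,
      ∃ (X : Set (H ⧸ E)) (h : Cl v X), g = rot v X h) → ∃ F, Mv V l.length F ∧
      (∀ x, QuotientGroup.mk' E (F x) = l.prod (QuotientGroup.mk' E x)) ∧
      ∀ c ∈ E, ∀ x, F (c * x) = c * F x by
    obtain ⟨F, hF, hF1, hF2⟩ := h l h2
    rw [h3] at hF1
    exact ⟨F, mv_mono hF h1, hF1, hF2⟩
  intro l
  induction l with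
  | nil =>
    intro _
    exact ⟨1, mv_one, fun x => by simp, fun c _ x => by simp⟩
  | cons g l ih =>
    intro hl
    obtain ⟨F, hF, hF1, hF2⟩ := ih fun g' hg' => hl g' (List.mem_cons_of_mem _ hg')
    obtain ⟨_, ⟨v, hv, rfl⟩, X, hX, hg⟩ := hl g List.mem_cons_self
    obtain ⟨F', hF', hF1', hF2'⟩ := lift_one (V := V) E hv X hX
    refine ⟨F' * F, ?_, ?_, ?_⟩
    · rw [List.length_cons, Nat.add_comm]
      exact mv_mul hF' hF
    · intro x
      rw [Equiv.Perm.mul_apply, hF1', List.prod_cons, Equiv.Perm.mul_apply, ← hF1, hg]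
    · intro c hc x
      rw [Equiv.Perm.mul_apply, Equiv.Perm.mul_apply, hF2 c hc, hF2' c hc]

end moves

/-- The elements of a normal cyclic subgroup whose `m`-th power is trivial. -/
def tor {H : Type u} [Group H] (C : Subgroup H) (hC : IsCyclic C) (m : ℕ) : Subgroup H where
  carrier := {x | x ∈ C ∧ x ^ m = 1}
  one_mem' := ⟨C.one_mem, one_pow m⟩
  mul_mem' := by
    rintro x y ⟨hx, hx'⟩ ⟨hy, hy'⟩
    have hcomm : Commute x y := by
      have h1 : (⟨x, hx⟩ : C) * ⟨y, hy⟩ = ⟨y, hy⟩ * ⟨x, hx⟩ := by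
        obtain ⟨g, hg⟩ := hC.exists_generator
        obtain ⟨i, hi⟩ := hg ⟨x, hx⟩
        obtain ⟨j, hj⟩ := hg ⟨y, hy⟩
        rw [← hi, ← hj]
        exact (Commute.refl g).zpow_zpow i j
      exact congrArg Subtype.val h1
    exact ⟨C.mul_mem hx hy, by rw [hcomm.mul_pow, hx', hy', one_mul]⟩
  inv_mem' := by
    rintro x ⟨hx, hx'⟩
    exact ⟨C.inv_mem hx, by rw [inv_pow, hx', inv_one]⟩

theorem mem_tor {H : Type u} [Group H] {C : Subgroup H} {hC : IsCyclic C} {m : ℕ} {x : H} :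
    x ∈ tor C hC m ↔ x ∈ C ∧ x ^ m = 1 := Iff.rfl

theorem tor_normal {H : Type u} [Group H] {C : Subgroup H} (hC : IsCyclic C) (hn : C.Normal)
    (m : ℕ) : (tor C hC m).Normal := by
  refine ⟨fun x hx g => ?_⟩
  rw [mem_tor] at hx ⊢
  exact ⟨hn.conj_mem x hx.1 g, by rw [conj_pow, hx.2]; group⟩

theorem bound (ν r r' e : ℕ) (hr : r' ≤ r) (he : e ≤ r) :
    (r' + 2) ^ 2 * (3 * ν + 3) + bdC ν + (2 * e + 2) ^ 2 * ν ≤ bd ν r := by
  unfold bd bdC
  have h2 : ∀ n : ℕ, n + 1 ≤ 2 ^ n := fun n => Nat.lt_two_pow_self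
  have a1 : (r' + 2) ^ 2 * (3 * ν + 3) ≤ 2 ^ (60 * (ν + r + 2) - 2) := by
    have b1 : r' + 2 ≤ 2 ^ (r + 1) := by have := h2 (r + 1); omega
    have b2 : 3 * ν + 3 ≤ 2 ^ (ν + 2) := by
      have := h2 ν
      rw [pow_add]; omega
    calc (r' + 2) ^ 2 * (3 * ν + 3) ≤ (2 ^ (r + 1)) ^ 2 * 2 ^ (ν + 2) :=
          Nat.mul_le_mul (Nat.pow_le_pow_left b1 2) b2
      _ = 2 ^ ((r + 1) * 2 + (ν + 2)) := by rw [← pow_mul, ← pow_add]
      _ ≤ _ := Nat.pow_le_pow_right (by norm_num) (by omega)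
  have a2 : 2 ^ (50 * (ν + 2)) ≤ 2 ^ (60 * (ν + r + 2) - 2) :=
    Nat.pow_le_pow_right (by norm_num) (by omega)
  have a3 : (2 * e + 2) ^ 2 * ν ≤ 2 ^ (60 * (ν + r + 2) - 2) := by
    have b1 : 2 * e + 2 ≤ 2 ^ (r + 1) := by
      have := h2 r
      rw [pow_succ]; omega
    have b2 : ν ≤ 2 ^ ν := by have := h2 ν; omega
    calc (2 * e + 2) ^ 2 * ν ≤ (2 ^ (r + 1)) ^ 2 * 2 ^ ν :=
          Nat.mul_le_mul (Nat.pow_le_pow_left b1 2) b2
      _ = 2 ^ ((r + 1) * 2 + ν) := by rw [← pow_mul, ← pow_add]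
      _ ≤ _ := Nat.pow_le_pow_right (by norm_num) (by omega)
  have a4 : 2 ^ (60 * (ν + r + 2)) = 4 * 2 ^ (60 * (ν + r + 2) - 2) := by
    rw [show 60 * (ν + r + 2) = (60 * (ν + r + 2) - 2) + 2 by omega, pow_add]
    norm_num [mul_comm]
  omega

theorem merge (h1 : MergCS) (h2 : GenS) (h3 : FlipS) : MergeS := by
  classical
  intro H _ _ V C ω hV hCn hCc hCs _ hp
  have := hCn
  -- the primes which divide the order of some letter
  set S : Finset ℕ := (Nat.card C).primeFactors.filter (fun p => ∃ v ∈ V, p ∣ orderOf v) with hS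
  set m := ∏ p ∈ S, p with hm
  have hSprime : ∀ p ∈ S, p.Prime := fun p hp => Nat.prime_of_mem_primeFactors
    (Finset.mem_filter.1 hp).1
  set E := tor C hCc m with hE
  have hEn : E.Normal := tor_normal hCc hCn m
  have hEC : E ≤ C := fun x hx => hx.1
  have hEcyc : IsCyclic E := Subgroup.isCyclic_of_le hEC
  have hcardE : Nat.card E ∣ Nat.card C := Subgroup.card_dvd_of_le hEC
  have hcardC0 : Nat.card C ≠ 0 := Nat.card_pos.ne'
  -- primes of `E`
  have hEp : ∀ p ∈ (Nat.card E).primeFactors, p ∈ S := by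
    intro p hpE
    have hpp : Fact p.Prime := ⟨Nat.prime_of_mem_primeFactors hpE⟩
    obtain ⟨x, hx⟩ := exists_prime_orderOf_dvd_card' (G := E) p (Nat.dvd_of_mem_primeFactors hpE)
    have hxm : (x : H) ^ m = 1 := x.2.2
    have hord : orderOf (x : H) = p := by rw [← hx]; exact Subgroup.orderOf_coe x
    have hdvd : p ∣ m := by rw [← hord]; exact orderOf_dvd_of_pow_eq_one hxm
    rw [hm] at hdvd
    obtain ⟨q, hq, hpq⟩ := (Prime.dvd_finsetProd_iff hpp.out.prime _).1 hdvd
    have : p = q := (Nat.prime_dvd_prime_iff_eq hpp.out (hSprime q hq)).1 hpq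
    rw [this]; exact hq
  have hSE : ∀ p ∈ S, p ∣ Nat.card E := by
    intro p hpS
    have hpp : Fact p.Prime := ⟨hSprime p hpS⟩
    have hpC : p ∣ Nat.card C := Nat.dvd_of_mem_primeFactors (Finset.mem_filter.1 hpS).1
    obtain ⟨x, hx⟩ := exists_prime_orderOf_dvd_card' (G := C) p hpC
    have hord : orderOf (x : H) = p := by rw [← hx]; exact Subgroup.orderOf_coe x
    have hxE : (x : H) ∈ E := by
      refine mem_tor.2 ⟨x.2, ?_⟩
      rw [← orderOf_dvd_iff_pow_eq_one, hord]
      exact Finset.dvd_prod_of_mem (fun p => p) hpS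
    rw [← hord, ← Subgroup.orderOf_mk (x : H) hxE]
    exact orderOf_dvd_natCard _
  -- the quotient
  set π := QuotientGroup.mk' E with hπ
  have hπs : Function.Surjective π := QuotientGroup.mk'_surjective E
  set C' := C.map π with hC'
  have hC'n : C'.Normal := Subgroup.Normal.map hCn π hπs
  have hC'c : IsCyclic C' := by
    refine isCyclic_of_surjective (π.subgroupMap C) (π.subgroupMap_surjective C)
  have hind : C'.index = C.index := Subgroup.index_map_eq C hπs (by
    rw [hπ, QuotientGroup.ker_mk']; exact hEC)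
  have hcard : Nat.card C' * Nat.card E = Nat.card C := by
    have e1 := C'.card_mul_index
    have e2 := C.card_mul_index
    have e3 := E.card_mul_index
    have e4 : Nat.card (H ⧸ E) = E.index := rfl
    have hi0 : C.index ≠ 0 := Subgroup.FiniteIndex.index_ne_zero
    rw [hind, e4] at e1
    have e5 : (Nat.card C' * Nat.card E) * C.index = Nat.card C * C.index := by
      rw [e2, ← e3, ← e1]; ring
    exact Nat.eq_of_mul_eq_mul_right (Nat.pos_of_ne_zero hi0) e5
  have hC'dvd : Nat.card C' ∣ Nat.card C := ⟨_, hcard.symm⟩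
  have hC's : Squarefree (Nat.card C') := hCs.squarefree_of_dvd hC'dvd
  have hC'S : ∀ p : ℕ, p.Prime → p ∣ Nat.card C' → p ∉ S := by
    intro p hpp hpC' hpS
    have h4 : p * p ∣ Nat.card C := by
      rw [← hcard]
      exact mul_dvd_mul hpC' (hSE p hpS)
    exact hpp.one_lt.ne' (Nat.isUnit_iff.1 (hCs p h4))
  set r := (Nat.card C).primeFactors.card with hr
  have hr' : (Nat.card C').primeFactors.card ≤ r :=
    Finset.card_le_card (Nat.primeFactors_mono hC'dvd hcardC0)
  have hre : (Nat.card E).primeFactors.card ≤ r :=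
    Finset.card_le_card (Nat.primeFactors_mono hcardE hcardC0)
  have hV' : Subgroup.closure (π '' V) = ⊤ := by
    rw [← MonoidHom.map_closure, hV, ← MonoidHom.range_eq_map, MonoidHom.range_eq_top]
    exact hπs
  -- orders of letters in the quotient
  have hordV : ∀ v ∈ V, (orderOf (π v)).Coprime (Nat.card C') := by
    intro v hv
    refine Nat.Coprime.symm (Nat.Coprime.symm ?_)
    rw [Nat.coprime_iff_gcd_eq_one]
    by_contra hne
    obtain ⟨p, hpp, hpd⟩ := Nat.exists_prime_and_dvd hne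
    have h5 : p ∣ orderOf v := (hpd.trans (Nat.gcd_dvd_left _ _)).trans (orderOf_map_dvd π v)
    have h6 : p ∣ Nat.card C' := hpd.trans (Nat.gcd_dvd_right _ _)
    refine hC'S p hpp h6 (Finset.mem_filter.2 ⟨?_, v, hv, h5⟩)
    exact Nat.mem_primeFactors.2 ⟨hpp, h6.trans hC'dvd, hcardC0⟩
  have hordν : ∀ v ∈ V, orderOf (π v) ≤ C.index := by
    intro v hv
    have h5 : orderOf (π v) ∣ Nat.card C' * C'.index := by
      rw [C'.card_mul_index]; exact orderOf_dvd_natCard _
    have h6 : orderOf (π v) ∣ C'.index := (hordV v hv).dvd_of_dvd_mul_left h5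
    rw [hind] at h6
    exact Nat.le_of_dvd (Nat.pos_of_ne_zero Subgroup.FiniteIndex.index_ne_zero) h6
  -- GEN and MERGC in the quotient
  obtain ⟨l, hl, hlen, hgen⟩ := h2 (H ⧸ E) (π '' V) C' (π ω) hV' hC'n hC'c hC's (by
    intro p hpC'
    have h4 := (hp p (Nat.primeFactors_mono hC'dvd hcardC0 hpC')).2
    omega)
  obtain ⟨f', hf', hTwo⟩ := h1 (H ⧸ E) (π '' V) C' (l.prod * π ω) hV' hC'n hgen (by
    rintro _ ⟨v, hv, rfl⟩
    exact hordV v hv)
  have hmv : Mv (π '' V) (l.length + bdC C'.index) (Equiv.mulRight l.prod * f') :=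
    mv_mul (mv_word l hl) hf'
  obtain ⟨F, hF, hF1, hF2⟩ := lift_mv E hmv
  have hTwo' : Two (Equiv.mulRight (π ω) * (Equiv.mulRight l.prod * f')) := by
    have e : (Equiv.mulRight (π ω) : Equiv.Perm (H ⧸ E)) * (Equiv.mulRight l.prod * f') =
        Equiv.mulRight (l.prod * π ω) * f' := by
      ext x; simp [mul_assoc]
    rw [e]; exact hTwo
  obtain ⟨f, hf, hfT⟩ := h3 H V E hEn C.index (Equiv.mulRight ω * F)
    (Equiv.mulRight (π ω) * (Equiv.mulRight l.prod * f')) hEcyc
    (hCs.squarefree_of_dvd hcardE) hordν (by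
      intro p hpE
      have hpS := hEp p hpE
      have h4 := hp p (Finset.mem_filter.1 hpS).1
      exact ⟨h4.1, by omega, (Finset.mem_filter.1 hpS).2⟩) (by
      intro c hc x
      rw [Equiv.Perm.mul_apply, Equiv.Perm.mul_apply, hF2 c hc]
      simp [mul_assoc]) (by
      intro x
      rw [Equiv.Perm.mul_apply, Equiv.Perm.mul_apply, ← hF1 x]
      simp [hπ]) hTwo'
  refine ⟨F * f, mv_mono (mv_mul hF hf) ?_, ?_⟩
  · have hb := bound C.index r (Nat.card C').primeFactors.card (Nat.card E).primeFactors.card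
      hr' hre
    rw [hind] at hlen
    rw [hind]
    omega
  · rw [← mul_assoc]; exact hfT

end Pool.Agent.Lib.MP_688fd0_co.SQ6.H96
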